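import Pool.Agent.V8H8.AB.Many

/-!
# If the abc inequality over a number field has exceptions, it has many in short windows

Let `K` be a number field and `ρ > 0`. If the abc conjecture over `K` is false, then there is `c > 0`
such that for all `ε < c` and all `B` and `t₀` there is `t ≥ t₀` such that at least `c / ε ^ 2` points
with `t ≤ h(P) ≤ (1 + ρ) t` violate the inequality `h(P) < (1 + ε) rad(P) + B`. So the conjecture
over `K` holds if (and only if) for arbitrarily small `ε` there are few violations in each such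
window of heights, where few means `o(ε⁻²)` as `ε → 0`, uniformly in the window.

The proof applies to a bad point the maps
`t ↦ (a + b) ^ (a + b) / (a ^ a b ^ b) t ^ a (1 - t) ^ b`, which are unramified outside the three
cusps, with `a` and `b` in an interval of length about `1 / ε`.
-/

set_option autoImplicit false

namespace Pool.Agent.Results.MP_a793bb_nt.FewExceptionsImplyNone

open NumberField

variable {K : Type} [Field K] [NumberField K]

/-- the height `h(P)` of the problem (the height of Mathlib is relative to `K`) -/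
noncomputable def height (x : Fin 3 → K) : ℝ :=
  Height.logHeight x / (Module.finrank ℚ K : ℝ)

/-- the radical of the problem: the sum of `log N(v) / d` over the primes `v` at which the
absolute values of the coordinates are not all equal -/
noncomputable def rad (x : Fin 3 → K) : ℝ :=
  (∑ᶠ v ∈ {v : FinitePlace K | ∃ i j, v (x i) ≠ v (x j)},
    Real.log (Ideal.absNorm v.maximalIdeal.asIdeal : ℝ)) / (Module.finrank ℚ K : ℝ)

/-- the coordinates of the points of the problem -/
def Points (K : Type) [Field K] : Set (Fin 3 → K) :=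
  {x | x 0 + x 1 + x 2 = 0 ∧ x 0 * x 1 * x 2 ≠ 0}

/-- the abc conjecture over `K`: for each `ε > 0` there is `C` such that all points satisfy
`h(P) < (1 + ε) rad(P) + C` -/
def ABC (K : Type) [Field K] [NumberField K] : Prop :=
  ∀ ε : ℝ, 0 < ε → ∃ C : ℝ, ∀ x ∈ Points K, height x < (1 + ε) * rad x + C

/-- the points of the projective plane over `K` with `t ≤ h(P) ≤ (1 + ρ) t` which violate the
inequality `h(P) < (1 + ε) rad(P) + B` -/
def Violations (K : Type) [Field K] [NumberField K] (ε B t ρ : ℝ) :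
    Set (Projectivization K (Fin 3 → K)) :=
  {P | ∃ (x : Fin 3 → K) (hx : x ≠ 0), P = Projectivization.mk K x hx ∧ x ∈ Points K ∧
    t ≤ height x ∧ height x ≤ (1 + ρ) * t ∧ (1 + ε) * rad x + B ≤ height x}

open Pool.Agent.V8H8.AB

lemma d_pos : (0 : ℝ) < (Module.finrank ℚ K : ℝ) := by
  exact_mod_cast Module.finrank_pos

lemma rad_eq {x : Fin 3 → K} (hx : x ∈ Points K) :
    rad x = W (I (x 0, -x 2)) / (Module.finrank ℚ K : ℝ) := by
  unfold rad W Nv
  congr 2
  ext v
  have e1 : x 1 = -x 2 - x 0 := by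
    have := hx.1
    linear_combination this
  have e2 : v (-x 2) = v (x 2) := map_neg_eq_map v (x 2)
  have : (∃ i j, v (x i) ≠ v (x j)) ↔ ¬ (v (x 0) = v (-x 2) ∧ v (-x 2 - x 0) = v (-x 2)) := by
    rw [← e1, e2]
    constructor
    · rintro ⟨i, j, hij⟩ ⟨h1, h2⟩
      apply hij
      fin_cases i <;> fin_cases j <;> simp [h1, h2]
    · intro h
      by_contra hcon
      push Not at hcon
      exact h ⟨hcon 0 2, hcon 1 2⟩
  simp only [Set.mem_ofPred_eq, this, I]

lemma height_diff : ∃ C : ℝ, 0 ≤ C ∧ ∀ x ∈ Points K,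
    |Height.logHeight x - hh (x 0, -x 2)| ≤ C := by
  set A : Fin 2 × Fin 3 → K := fun ij =>
    (![![1, 0, 0], ![0, 0, -1]] : Fin 2 → Fin 3 → K) ij.1 ij.2 with hA
  set B : Fin 3 × Fin 2 → K := fun ij =>
    (![![1, 0], ![-1, 1], ![0, -1]] : Fin 3 → Fin 2 → K) ij.1 ij.2 with hB
  refine ⟨|Height.totalWeight K * Real.log (Nat.card (Fin 3)) + Height.logHeight A| +
    |Height.totalWeight K * Real.log (Nat.card (Fin 2)) + Height.logHeight B|, by positivity,
    fun x hx => ?_⟩
  have h1 := Height.logHeight_linearMap_apply_le A x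
  have h2 := Height.logHeight_linearMap_apply_le B ![x 0, -x 2]
  have e1 : (fun j : Fin 2 => ∑ i : Fin 3, A (j, i) * x i) = ![x 0, -x 2] := by
    funext j
    fin_cases j <;> simp [hA, Fin.sum_univ_three]
  have e2 : (fun j : Fin 3 => ∑ i : Fin 2, B (j, i) * (![x 0, -x 2] : Fin 2 → K) i) = x := by
    funext j
    fin_cases j
    · simp [hB]
    · have := hx.1
      simp only [hB, Fin.sum_univ_two, Fin.mk_one, Matrix.cons_val_one, Matrix.cons_val_zero]
      linear_combination -this
    · simp [hB]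
  rw [e1] at h1
  rw [e2] at h2
  have k1 := le_abs_self (Height.totalWeight K * Real.log (Nat.card (Fin 3)) + Height.logHeight A)
  have k2 := le_abs_self (Height.totalWeight K * Real.log (Nat.card (Fin 2)) + Height.logHeight B)
  have k3 := abs_nonneg (Height.totalWeight K * Real.log (Nat.card (Fin 3)) + Height.logHeight A)
  have k4 := abs_nonneg (Height.totalWeight K * Real.log (Nat.card (Fin 2)) + Height.logHeight B)
  rw [abs_le]
  unfold hh
  constructor <;> linarith

lemma valid_of {x : Fin 3 → K} (hx : x ∈ Points K) : Valid (x 0, -x 2) := by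
  have h1 := hx.2
  have e1 : -x 2 - x 0 = x 1 := by
    have := hx.1
    linear_combination -this
  refine ⟨?_, ?_, ?_⟩
  · intro h0
    apply h1
    simp only at h0
    rw [h0]
    ring
  · intro h0
    apply h1
    simp only [neg_eq_zero] at h0
    rw [h0]
    ring
  · show -x 2 - x 0 ≠ 0
    rw [e1]
    intro h0
    apply h1
    rw [h0]
    ring

/-- the coordinates belonging to a pair -/
def vec (u : K × K) : Fin 3 → K := ![u.1, u.2 - u.1, -u.2]

lemma vec_mem {u : K × K} (hu : Valid u) : vec u ∈ Points K := by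
  refine ⟨?_, ?_⟩
  · simp [vec]
  · simp only [vec, Matrix.cons_val_zero, Matrix.cons_val_one, Matrix.cons_val]
    exact mul_ne_zero (mul_ne_zero hu.1 hu.2.2) (neg_ne_zero.2 hu.2.1)

lemma vec_pair (u : K × K) : ((vec u) 0, -(vec u) 2) = u := by
  ext <;> simp [vec]

lemma vec_ne {u : K × K} (hu : Valid u) : vec u ≠ 0 := by
  intro h
  have := congrFun h 0
  simp only [vec, Matrix.cons_val_zero, Pi.zero_apply] at this
  exact hu.1 this

/-- many violations if there are violations of unbounded size -/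
theorem lower (K : Type) [Field K] [NumberField K] (ρ : ℝ) (hρ : 0 < ρ) (h : ¬ ABC K) :
    ∃ c : ℝ, 0 < c ∧ ∀ ε : ℝ, 0 < ε → ε < c → ∀ B t₀ : ℝ, ∃ t : ℝ, t₀ ≤ t ∧
      ∃ F : Finset (Projectivization K (Fin 3 → K)), (F : Set _) ⊆ Violations K ε B t ρ ∧
        c / ε ^ 2 ≤ (F.card : ℝ) := by
  classical
  set d : ℝ := (Module.finrank ℚ K : ℝ) with hd
  have hd0 : 0 < d := d_pos
  obtain ⟨C0, hC0, hdiff⟩ := height_diff (K := K)
  unfold ABC at h
  push Not at h
  obtain ⟨ε0, hε0, h⟩ := h
  set η : ℝ := ε0 / (1 + ε0) with hη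
  have hη0 : 0 < η := by positivity
  have hη1 : 1 - η = 1 / (1 + ε0) := by
    rw [hη]
    field_simp
    ring
  -- the supply of bad points
  have hbad : ∀ L : ℝ, ∃ p : K × K, Valid p ∧ L ≤ hh p ∧ W (I p) ≤ (1 - η) * hh p := by
    intro L
    obtain ⟨x, hx, hxv⟩ := h ((|L| + C0) / d)
    have h1 := hdiff x hx
    rw [abs_le] at h1
    rw [rad_eq hx, ← hd] at hxv
    unfold height at hxv
    rw [← hd] at hxv
    have h2 : (1 + ε0) * W (I (x 0, -x 2)) + (|L| + C0) ≤ Height.logHeight x := by
      have e : (1 + ε0) * (W (I (x 0, -x 2)) / d) + (|L| + C0) / d =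
          ((1 + ε0) * W (I (x 0, -x 2)) + (|L| + C0)) / d := by
        field_simp
      rw [e, div_le_div_iff_of_pos_right hd0] at hxv
      exact hxv
    have hW := W_nonneg (I (x 0, -x 2))
    have hLa := le_abs_self L
    have hLa0 := abs_nonneg L
    refine ⟨(x 0, -x 2), valid_of hx, ?_, ?_⟩
    · have : 0 ≤ (1 + ε0) * W (I (x 0, -x 2)) := by positivity
      linarith
    · rw [hη1]
      have h3 : (1 + ε0) * W (I (x 0, -x 2)) ≤ hh (x 0, -x 2) := by linarith
      rw [one_div, ← div_eq_inv_mul, le_div_iff₀ (by positivity)]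
      linarith
  -- the number `q` with `1 / q ≤ ρ`
  obtain ⟨q', hq'⟩ := exists_nat_one_div_lt hρ
  set q : ℕ := q' + 1 with hq
  have hq1 : 1 ≤ q := by omega
  have hqρ : 1 / (q : ℝ) ≤ ρ := by
    rw [hq]
    push_cast
    exact hq'.le
  have hqpos : (0 : ℝ) < q := by exact_mod_cast hq1
  refine ⟨min (η / (8 * (q + 1))) ((η / (8 * (q + 1))) ^ 2), by positivity, ?_⟩
  intro ε hε hεc B t₀
  have hε1 : ε < η / (8 * (q + 1)) := hεc.trans_le (min_le_left _ _)
  set κ : ℝ := η / (8 * (q + 1)) with hκ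
  have hκ0 : 0 < κ := by positivity
  set k : ℕ := ⌊2 * κ / ε⌋₊ with hk
  have hk1 : 1 ≤ k := by
    rw [hk, Nat.one_le_floor_iff, one_le_div hε]
    linarith
  have hkle : (k : ℝ) ≤ 2 * κ / ε := Nat.floor_le (by positivity)
  have hkge : κ / ε ≤ k := by
    have h1 : 2 * κ / ε < k + 1 := Nat.lt_floor_add_one _
    have h2 : 1 < κ / ε := by
      rw [one_lt_div hε]
      exact hε1
    have h3 : 2 * κ / ε = κ / ε + κ / ε := by ring
    linarith
  have hεk : ε * (2 * (q + 1) * k) ≤ η / 2 := by
    calc ε * (2 * (q + 1) * k) ≤ ε * (2 * (q + 1) * (2 * κ / ε)) := by gcongr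
      _ = η / 2 := by
        rw [hκ]
        field_simp
        norm_num
  obtain ⟨s, hs, F, hFc, hF, hFinj⟩ := many q hq1 η hη0 hbad k hk1 ε hε hεk (|B| * d + C0)
    (|t₀| * d) C0 hC0
  have hs0 : 0 ≤ s := by
    have : 0 ≤ |t₀| * d := by positivity
    linarith
  -- the projective points
  have hvec : ∀ u ∈ F, vec u ≠ 0 := fun u hu => vec_ne (hF u hu).1
  refine ⟨s / d, ?_, F.attach.image fun u => Projectivization.mk K (vec u.1) (hvec u.1 u.2), ?_, ?_⟩
  · rw [le_div_iff₀ hd0]
    have : t₀ * d ≤ |t₀| * d := mul_le_mul_of_nonneg_right (le_abs_self _) hd0.le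
    linarith
  · intro P hP
    rw [Finset.coe_image, Set.mem_image] at hP
    obtain ⟨u, -, rfl⟩ := hP
    obtain ⟨f1, f2, f3, f4⟩ := hF u.1 u.2
    have hm := vec_mem f1
    have h1 := hdiff _ hm
    rw [vec_pair, abs_le] at h1
    refine ⟨vec u.1, hvec u.1 u.2, rfl, hm, ?_, ?_, ?_⟩
    · unfold height
      rw [← hd, div_le_div_iff_of_pos_right hd0]
      linarith
    · unfold height
      rw [← hd, div_le_iff₀ hd0]
      have e : (1 + ρ) * (s / d) * d = (1 + ρ) * s := by
        field_simp
      rw [e]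
      have : (1 + 1 / (q : ℝ)) * s ≤ (1 + ρ) * s := mul_le_mul_of_nonneg_right (by linarith) hs0
      linarith
    · rw [rad_eq hm, vec_pair]
      unfold height
      rw [← hd, le_div_iff₀ hd0]
      have e : ((1 + ε) * (W (I u.1) / d) + B) * d = (1 + ε) * W (I u.1) + B * d := by
        field_simp
      rw [e]
      have : B * d ≤ |B| * d := mul_le_mul_of_nonneg_right (le_abs_self _) hd0.le
      linarith
  · rw [Finset.card_image_of_injective, Finset.card_attach, hFc]
    · push_cast
      calc min κ (κ ^ 2) / ε ^ 2 ≤ κ ^ 2 / ε ^ 2 := by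
            gcongr
            exact min_le_right _ _
        _ = (κ / ε) ^ 2 := (div_pow κ ε 2).symm
        _ ≤ (k : ℝ) ^ 2 := pow_le_pow_left₀ (by positivity) hkge 2
    · rintro ⟨u, hu⟩ ⟨u', hu'⟩ huu
      simp only at huu
      rw [Projectivization.mk_eq_mk_iff'] at huu
      obtain ⟨a, ha⟩ := huu
      have g0 := congrFun ha 0
      have g2 := congrFun ha 2
      simp only [vec, Pi.smul_apply, smul_eq_mul, Matrix.cons_val_zero, Matrix.cons_val] at g0 g2
      have v1 := (hF u hu).1
      have v2 := (hF u' hu').1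
      have ha0 : a ≠ 0 := by
        rintro rfl
        rw [zero_mul] at g0
        exact v1.1 g0.symm
      have hr : u.1 / u.2 = u'.1 / u'.2 := by
        have g2' : u.2 = a * u'.2 := by linear_combination g2
        rw [← g0, g2']
        exact mul_div_mul_left _ _ ha0
      exact Subtype.ext (hFinj u hu u' hu' hr)

/-- Let `K` be a number field and `ρ > 0`. (1) If the abc conjecture over `K` is false, then there is
`c > 0` such that for all positive `ε < c` and all `B` and `t₀` there is `t ≥ t₀` such that at least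
`c / ε ^ 2` points with `t ≤ h(P) ≤ (1 + ρ) t` violate `h(P) < (1 + ε) rad(P) + B`.
(2) Hence the abc conjecture over `K` is true if and only if for every `κ > 0` there are arbitrarily
small `ε > 0` and `B`, `t₀` such that for all `t ≥ t₀` at most `κ / ε ^ 2` points with
`t ≤ h(P) ≤ (1 + ρ) t` violate `h(P) < (1 + ε) rad(P) + B`. -/
theorem result (K : Type) [Field K] [NumberField K] (ρ : ℝ) (hρ : 0 < ρ) :
    (¬ ABC K → ∃ c : ℝ, 0 < c ∧ ∀ ε : ℝ, 0 < ε → ε < c → ∀ B t₀ : ℝ, ∃ t : ℝ, t₀ ≤ t ∧
      ∃ F : Finset (Projectivization K (Fin 3 → K)), (F : Set _) ⊆ Violations K ε B t ρ ∧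
        c / ε ^ 2 ≤ (F.card : ℝ)) ∧
    (ABC K ↔ ∀ κ : ℝ, 0 < κ → ∀ ε₁ : ℝ, 0 < ε₁ → ∃ ε : ℝ, 0 < ε ∧ ε < ε₁ ∧ ∃ B t₀ : ℝ,
      ∀ t : ℝ, t₀ ≤ t → ∀ F : Finset (Projectivization K (Fin 3 → K)),
        (F : Set _) ⊆ Violations K ε B t ρ → (F.card : ℝ) ≤ κ / ε ^ 2) := by
  refine ⟨lower K ρ hρ, ?_, ?_⟩
  · intro h κ hκ ε₁ hε₁
    obtain ⟨C, hC⟩ := h (ε₁ / 2) (by positivity)
    refine ⟨ε₁ / 2, by positivity, by linarith, C, 0, fun t _ F hF => ?_⟩
    have hempty : F = ∅ := by
      rw [Finset.eq_empty_iff_forall_notMem]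
      intro P hP
      obtain ⟨x, hx, -, hxP, -, -, hv⟩ := hF hP
      have := hC x hxP
      linarith
    rw [hempty]
    simp only [Finset.card_empty, Nat.cast_zero]
    positivity
  · intro h
    by_contra hcon
    obtain ⟨c, hc, hlow⟩ := lower K ρ hρ hcon
    obtain ⟨ε, hε, hεc, B, t₀, hup⟩ := h (c / 2) (by positivity) c hc
    obtain ⟨t, ht, F, hF, hcard⟩ := hlow ε hε hεc B t₀
    have h1 := hup t ht F hF
    have h2 : c / 2 / ε ^ 2 < c / ε ^ 2 := by
      apply div_lt_div_of_pos_right _ (by positivity)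
      linarith
    linarith

end Pool.Agent.Results.MP_a793bb_nt.FewExceptionsImplyNone
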