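import Pool.Agent.V8H8.AB.Near

/-!
# The abc conjecture over a number field is decided near one cusp

Let `K` be a number field, `T` a finite set of primes and `δ > 0`. The abc inequality over `K`
(with every `ε > 0`) holds for all points `P = (a : b : c)` with `a + b + c = 0`, `a b c ≠ 0`, if it
holds for those points which are close to the cusp `(0 : 1 : -1)` at all infinite places and at all
places of `T` simultaneously: `|a|_v ≤ δ |c|_v`. There is `D = D(K, T, δ)` such that the inequality
`rad ≥ (1 - η / D) h - O(1)` near the cusp implies `rad ≥ (1 - η) h - O(1)` everywhere.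

The proof uses the maps `t ↦ t ^ n` and `t ↦ -16 t (1 - t) / (2 t - 1) ^ 4` of the line, which are
unramified outside the cusps: by the pigeonhole principle for the powers `t ^ (2 ^ k)` in the
(locally compact) completions, `t ^ n` is near one of the three cusps at each of the given places for
some `n` bounded in terms of `K`, `T` and `δ`, and the second map sends all three cusps to one.
-/

set_option autoImplicit false

namespace Pool.Agent.Results.MP_a793bb_nt.NearOneCusp

open NumberField

variable {K : Type} [Field K] [NumberField K]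

/-- the height `h(P)` of the problem (the height of Mathlib is relative to `K`) -/
noncomputable def height (x : Fin 3 → K) : ℝ :=
  Height.logHeight x / (Module.finrank ℚ K : ℝ)

/-- the radical of the problem: the sum of `log N(v) / d` over the primes `v` at which the
absolute values of the coordinates are not all equal -/
noncomputable def rad (x : Fin 3 → K) : ℝ :=
  (∑ᶠ v ∈ {v : FinitePlace K | ∃ i j, v (x i) ≠ v (x j)},
    Real.log (Ideal.absNorm v.maximalIdeal.asIdeal : ℝ)) / (Module.finrank ℚ K : ℝ)

/-- the coordinates of the points of the problem -/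
def Points (K : Type) [Field K] : Set (Fin 3 → K) :=
  {x | x 0 + x 1 + x 2 = 0 ∧ x 0 * x 1 * x 2 ≠ 0}

/-- the points near the cusp `(0 : 1 : -1)` at all infinite places and the finite places in `T` -/
def Near (T : Set (FinitePlace K)) (δ : ℝ) : Set (Fin 3 → K) :=
  {x | x ∈ Points K ∧ (∀ w : InfinitePlace K, w (x 0) ≤ δ * w (x 2)) ∧
    ∀ v ∈ T, v (x 0) ≤ δ * v (x 2)}

/-- the abc inequality for the points in `A`: for each `ε > 0` there is `C` such that all points in
`A` satisfy `h(P) < (1 + ε) rad(P) + C` -/
def ABC (A : Set (Fin 3 → K)) : Prop :=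
  ∀ ε : ℝ, 0 < ε → ∃ C : ℝ, ∀ x ∈ A, height x < (1 + ε) * rad x + C

open Pool.Agent.V8H8.AB

lemma d_pos : (0 : ℝ) < (Module.finrank ℚ K : ℝ) := by
  exact_mod_cast Module.finrank_pos

lemma rad_eq {x : Fin 3 → K} (hx : x ∈ Points K) :
    rad x = W (I (x 0, -x 2)) / (Module.finrank ℚ K : ℝ) := by
  unfold rad W Nv
  congr 2
  ext v
  have e1 : x 1 = -x 2 - x 0 := by
    have := hx.1
    linear_combination this
  have e2 : v (-x 2) = v (x 2) := map_neg_eq_map v (x 2)
  have : (∃ i j, v (x i) ≠ v (x j)) ↔ ¬ (v (x 0) = v (-x 2) ∧ v (-x 2 - x 0) = v (-x 2)) := by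
    rw [← e1, e2]
    constructor
    · rintro ⟨i, j, hij⟩ ⟨h1, h2⟩
      apply hij
      fin_cases i <;> fin_cases j <;> simp [h1, h2]
    · intro h
      by_contra hcon
      push Not at hcon
      exact h ⟨hcon 0 2, hcon 1 2⟩
  simp only [Set.mem_ofPred_eq, this, I]

lemma height_diff : ∃ C : ℝ, 0 ≤ C ∧ ∀ x ∈ Points K,
    |Height.logHeight x - hh (x 0, -x 2)| ≤ C := by
  set A : Fin 2 × Fin 3 → K := fun ij =>
    (![![1, 0, 0], ![0, 0, -1]] : Fin 2 → Fin 3 → K) ij.1 ij.2 with hA
  set B : Fin 3 × Fin 2 → K := fun ij =>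
    (![![1, 0], ![-1, 1], ![0, -1]] : Fin 3 → Fin 2 → K) ij.1 ij.2 with hB
  refine ⟨|Height.totalWeight K * Real.log (Nat.card (Fin 3)) + Height.logHeight A| +
    |Height.totalWeight K * Real.log (Nat.card (Fin 2)) + Height.logHeight B|, by positivity,
    fun x hx => ?_⟩
  have h1 := Height.logHeight_linearMap_apply_le A x
  have h2 := Height.logHeight_linearMap_apply_le B ![x 0, -x 2]
  have e1 : (fun j : Fin 2 => ∑ i : Fin 3, A (j, i) * x i) = ![x 0, -x 2] := by
    funext j
    fin_cases j <;> simp [hA, Fin.sum_univ_three]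
  have e2 : (fun j : Fin 3 => ∑ i : Fin 2, B (j, i) * (![x 0, -x 2] : Fin 2 → K) i) = x := by
    funext j
    fin_cases j
    · simp [hB]
    · have := hx.1
      simp only [hB, Fin.sum_univ_two, Fin.mk_one, Matrix.cons_val_one, Matrix.cons_val_zero]
      linear_combination -this
    · simp [hB]
  rw [e1] at h1
  rw [e2] at h2
  have k1 := le_abs_self (Height.totalWeight K * Real.log (Nat.card (Fin 3)) + Height.logHeight A)
  have k2 := le_abs_self (Height.totalWeight K * Real.log (Nat.card (Fin 2)) + Height.logHeight B)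
  have k3 := abs_nonneg (Height.totalWeight K * Real.log (Nat.card (Fin 3)) + Height.logHeight A)
  have k4 := abs_nonneg (Height.totalWeight K * Real.log (Nat.card (Fin 2)) + Height.logHeight B)
  rw [abs_le]
  unfold hh
  constructor <;> linarith

lemma rad_nonneg (x : Fin 3 → K) : 0 ≤ rad x := by
  refine div_nonneg (finsum_nonneg fun v => finsum_nonneg fun _ => ?_) d_pos.le
  exact (log_Nv_pos v).le

lemma height_nonneg (x : Fin 3 → K) : 0 ≤ height x :=
  div_nonneg (Height.logHeight_nonneg x) d_pos.le

/-- Let `K` be a number field, `T` a finite set of primes of `K` and `δ > 0`.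
There is `D ≥ 1` such that for every `η ≥ 0`: if `rad(P) ≥ (1 - η / D) h(P) - C` holds, with some
`C`, for the points near the cusp `(0 : 1 : -1)` at all infinite places and all places of `T`, then
`rad(P) ≥ (1 - η) h(P) - C'` holds, with some `C'`, for all points. Hence the abc conjecture for all
points over `K` is equivalent to the abc conjecture for the points near this cusp. -/
theorem result (K : Type) [Field K] [NumberField K] (T : Set (FinitePlace K)) (hT : T.Finite)
    (δ : ℝ) (hδ : 0 < δ) :
    (∃ D : ℕ, 1 ≤ D ∧ ∀ η : ℝ, 0 ≤ η →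
      (∃ C : ℝ, ∀ x ∈ Near T δ, (1 - η / D) * height x - C ≤ rad x) →
      ∃ C : ℝ, ∀ x ∈ Points K, (1 - η) * height x - C ≤ rad x) ∧
    (ABC (Points K) ↔ ABC (Near T δ)) := by
  classical
  set d : ℝ := (Module.finrank ℚ K : ℝ) with hd
  have hd0 : 0 < d := d_pos
  have main : ∃ D : ℕ, 1 ≤ D ∧ ∀ η : ℝ, 0 ≤ η →
      (∃ C : ℝ, ∀ x ∈ Near T δ, (1 - η / D) * height x - C ≤ rad x) →
      ∃ C : ℝ, ∀ x ∈ Points K, (1 - η) * height x - C ≤ rad x := by
    set S : Finset (AbsoluteValue K ℝ) :=
      (Finset.univ.image fun w : InfinitePlace K => w.1) ∪ (hT.toFinset.image fun v => v.1) with hS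
    have hTB : ∀ a ∈ S, TB a := by
      intro a ha
      rcases Finset.mem_union.1 ha with h | h
      · obtain ⟨w, -, rfl⟩ := Finset.mem_image.1 h
        exact TB_inf w
      · obtain ⟨v, -, rfl⟩ := Finset.mem_image.1 h
        exact TB_fin v
    obtain ⟨D, hD, h⟩ := transfer S hTB hδ
    obtain ⟨C0, hC0, hdiff⟩ := height_diff (K := K)
    refine ⟨D, hD, fun η hη => ?_⟩
    rintro ⟨C, hC⟩
    have hD0 : (0 : ℝ) < D := by exact_mod_cast hD
    obtain ⟨C', hC'⟩ := h η hη ⟨|C| * d + |1 - η / D| * C0, fun p hp hnear => by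
      have hx : (![p.1, p.2 - p.1, -p.2] : Fin 3 → K) ∈ Points K := by
        refine ⟨?_, ?_⟩
        · simp
        · simp only [Matrix.cons_val_zero, Matrix.cons_val_one, Matrix.cons_val]
          exact mul_ne_zero (mul_ne_zero hp.1 hp.2.2) (neg_ne_zero.2 hp.2.1)
      have hxN : (![p.1, p.2 - p.1, -p.2] : Fin 3 → K) ∈ Near T δ := by
        refine ⟨hx, fun w => ?_, fun v hv => ?_⟩
        · simp only [Matrix.cons_val_zero, Matrix.cons_val]
          have := hnear w.1 (Finset.mem_union_left _ (Finset.mem_image_of_mem _ (Finset.mem_univ w)))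
          have e : w (-p.2) = w p.2 := AbsoluteValue.map_neg w.1 p.2
          rw [e]
          exact this
        · simp only [Matrix.cons_val_zero, Matrix.cons_val]
          have := hnear v.1 (Finset.mem_union_right _ (Finset.mem_image_of_mem _
            (hT.mem_toFinset.2 hv)))
          rw [map_neg_eq_map]
          exact this
      have h1 := hC _ hxN
      have h2 := hdiff _ hx
      rw [rad_eq hx] at h1
      have ep : ((![p.1, p.2 - p.1, -p.2] : Fin 3 → K) 0, -(![p.1, p.2 - p.1, -p.2] : Fin 3 → K) 2) =
          p := by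
        ext <;> simp
      rw [ep] at h1 h2
      unfold height at h1
      rw [← hd] at h1
      set H := Height.logHeight (![p.1, p.2 - p.1, -p.2] : Fin 3 → K) with hH
      have h3 : (1 - η / D) * (H / d) - C ≤ W (I p) / d := h1
      rw [le_div_iff₀ hd0] at h3
      have h4 : ((1 - η / D) * (H / d) - C) * d = (1 - η / D) * H - C * d := by
        field_simp
      rw [h4] at h3
      have h5 : (1 - η / D) * (hh p - H) ≤ |1 - η / D| * C0 := by
        calc (1 - η / D) * (hh p - H) ≤ |(1 - η / D) * (hh p - H)| := le_abs_self _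
          _ = |1 - η / D| * |H - hh p| := by rw [abs_mul, abs_sub_comm (hh p) H]
          _ ≤ |1 - η / D| * C0 := mul_le_mul_of_nonneg_left h2 (abs_nonneg _)
      have h6 : C * d ≤ |C| * d := mul_le_mul_of_nonneg_right (le_abs_self C) hd0.le
      have h7 : (1 - η / D) * hh p = (1 - η / D) * H + (1 - η / D) * (hh p - H) := by ring
      linarith⟩
    refine ⟨(|1 - η| * C0 + |C'|) / d, fun x hx => ?_⟩
    have hp : Valid (x 0, -x 2) := by
      have h1 := hx.2
      have e1 : -x 2 - x 0 = x 1 := by
        have := hx.1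
        linear_combination -this
      refine ⟨?_, ?_, ?_⟩
      · intro h0
        apply h1
        simp only at h0
        rw [h0]
        ring
      · intro h0
        apply h1
        simp only [neg_eq_zero] at h0
        rw [h0]
        ring
      · show -x 2 - x 0 ≠ 0
        rw [e1]
        intro h0
        apply h1
        rw [h0]
        ring
    have h1 := hC' _ hp
    have h2 := hdiff x hx
    rw [rad_eq hx, ← hd, le_div_iff₀ hd0]
    unfold height
    rw [← hd]
    set H := Height.logHeight x with hH
    have h4 : ((1 - η) * (H / d) - (|1 - η| * C0 + |C'|) / d) * d =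
        (1 - η) * H - (|1 - η| * C0 + |C'|) := by
      field_simp
    rw [h4]
    have h5 : (1 - η) * (H - hh (x 0, -x 2)) ≤ |1 - η| * C0 := by
      calc (1 - η) * (H - hh (x 0, -x 2)) ≤ |(1 - η) * (H - hh (x 0, -x 2))| := le_abs_self _
        _ = |1 - η| * |H - hh (x 0, -x 2)| := abs_mul _ _
        _ ≤ |1 - η| * C0 := mul_le_mul_of_nonneg_left h2 (abs_nonneg _)
    have h7 : (1 - η) * H = (1 - η) * hh (x 0, -x 2) + (1 - η) * (H - hh (x 0, -x 2)) := by ring
    have h8 := le_abs_self C'
    linarith
  refine ⟨main, ?_, ?_⟩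
  · intro h ε hε
    obtain ⟨C, hC⟩ := h ε hε
    exact ⟨C, fun x hx => hC x hx.1⟩
  · intro h ε hε
    obtain ⟨D, hD, hmain⟩ := main
    have hD0 : (0 : ℝ) < D := by exact_mod_cast hD
    have hD1 : (1 : ℝ) ≤ D := by exact_mod_cast hD
    -- `η` with `1 / (1 - η) = 1 + ε`
    set η : ℝ := ε / (1 + ε) with hη
    have hη0 : 0 < η := by positivity
    have hη1 : 1 - η = 1 / (1 + ε) := by
      rw [hη]
      field_simp
      ring
    have hκ1 : η / D < 1 := by
      rw [div_lt_one hD0]
      have : η < 1 := by
        rw [hη, div_lt_one (by positivity)]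
        linarith
      linarith
    obtain ⟨C, hC⟩ := h (η / D) (by positivity)
    obtain ⟨C', hC'⟩ := hmain η hη0.le ⟨|C|, fun x hx => by
      have h1 := hC x hx
      have h2 := rad_nonneg x
      have h3 := height_nonneg x
      have h4 := le_abs_self C
      have h5 : 0 ≤ 1 - η / D := by linarith
      have h6 : 0 < η / D := by positivity
      have h7 : (1 - η / D) * height x ≤ (1 - η / D) * ((1 + η / D) * rad x + |C|) :=
        mul_le_mul_of_nonneg_left (by linarith) h5
      have h8 : (1 - η / D) * ((1 + η / D) * rad x + |C|) ≤ rad x + |C| := by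
        have h9 := abs_nonneg C
        nlinarith [mul_nonneg h6.le h9, mul_nonneg (mul_nonneg h6.le h6.le) h2]
      linarith⟩
    refine ⟨(1 + ε) * C' + 1, fun x hx => ?_⟩
    have h1 := hC' x hx
    rw [hη1] at h1
    have h2 : height x = (1 + ε) * (1 / (1 + ε) * height x) := by
      field_simp
    rw [h2]
    have h3 : (1 + ε) * (1 / (1 + ε) * height x) ≤ (1 + ε) * (rad x + C') :=
      mul_le_mul_of_nonneg_left (by linarith) (by positivity)
    linarith

end Pool.Agent.Results.MP_a793bb_nt.NearOneCusp
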