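import Pool.Agent.V8H4.TL.Final

/-!
# The abc inequality for almost all points over a number field in its sharp form

`K` is a number field of degree `d` and `T` a finite set of primes of `K`. The points
`P = (a : b : c)` over `K` with `a + b + c = 0` and `abc ≠ 0` are ordered by their radical; there
is no restriction on their heights. The number of the points with `exp rad_T ≤ X` is of exact order
`X ^ (2 d / 3)`, and `h - rad_T / 3`, which is never negative, is bounded in probability: its tail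
decays exponentially, at the rate `d`. Hence almost all points satisfy `h < rad_T / 3 + ψ (rad_T)`
if `ψ` tends to infinity, and for no bounded `ψ`.

The upper bounds come from the classes of points with the same repeated primes and the same
proximities to the cusps at the special places, with the starting theorem on almost all points for
the points with `h ≥ 2/5 rad_T`; the lower bounds from pairs of integers.
-/

set_option autoImplicit false

namespace Pool.Agent.Results.MP_a793bb_nt.SharpAlmostAll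

open NumberField IsDedekindDomain Filter Topology

variable {K : Type} [Field K] [NumberField K]

/-- the height `h(P)` of the point `P` with coordinates `x` -/
noncomputable def height (x : Fin 3 → K) : ℝ :=
  (∑ w : InfinitePlace K, (w.mult : ℝ) * Real.log (max (w (x 0)) (max (w (x 1)) (w (x 2)))) +
    ∑ᶠ v : HeightOneSpectrum (𝓞 K), Real.log
      (max (FinitePlace.mk v (x 0)) (max (FinitePlace.mk v (x 1)) (FinitePlace.mk v (x 2))))) /
    (Module.finrank ℚ K : ℝ)

/-- the radical of the point `P` with coordinates `x`, without the primes of `T`: the sum of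
`log N(v) / d` over the primes `v ∉ T` at which the valuations of the coordinates are not all
equal -/
noncomputable def rad (T : Set (HeightOneSpectrum (𝓞 K))) (x : Fin 3 → K) : ℝ :=
  (∑ᶠ (v : HeightOneSpectrum (𝓞 K)) (_ : v ∉ T ∧
      ¬ (FinitePlace.mk v (x 0) = FinitePlace.mk v (x 1) ∧
        FinitePlace.mk v (x 1) = FinitePlace.mk v (x 2))),
    Real.log (Ideal.absNorm v.asIdeal : ℝ)) / (Module.finrank ℚ K : ℝ)

/-- the points `P = (a : b : c)` over `K` with `a + b + c = 0`, `abc ≠ 0` and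
`exp rad_T(P) ≤ X`; there is no condition on the height of `P` -/
def Points (T : Set (HeightOneSpectrum (𝓞 K))) (X : ℝ) :
    Set (Projectivization K (Fin 3 → K)) :=
  {P | ∃ (x : Fin 3 → K) (hx : x ≠ 0), P = Projectivization.mk K x hx ∧ x 0 + x 1 + x 2 = 0 ∧
    x 0 * x 1 * x 2 ≠ 0 ∧ Real.exp (rad T x) ≤ X}

/-- those among them with `h(P) ≥ rad_T(P) / 3 + ψ (rad_T(P))` -/
def Above (T : Set (HeightOneSpectrum (𝓞 K))) (ψ : ℝ → ℝ) (X : ℝ) :
    Set (Projectivization K (Fin 3 → K)) :=
  {P | ∃ (x : Fin 3 → K) (hx : x ≠ 0), P = Projectivization.mk K x hx ∧ x 0 + x 1 + x 2 = 0 ∧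
    x 0 * x 1 * x 2 ≠ 0 ∧ Real.exp (rad T x) ≤ X ∧ rad T x / 3 + ψ (rad T x) ≤ height x}

/-- **The sharp abc inequality for almost all points over any number field.** Let `K` be a number
field of degree `d` and `T` a finite set of primes of `K`.
(1) The number of the points `(a : b : c)` over `K` with `a + b + c = 0`, `abc ≠ 0` and
`exp rad_T ≤ X`, of whatever height, lies between two positive multiples of `X ^ (2 d / 3)` for all
large `X`. All of them have `h ≥ rad_T / 3`.
(2) For every `β < d` there are `C, ν > 0` such that at most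
`C (exp (-β s) + X ^ (-ν)) X ^ (2 d / 3)` of them have `h ≥ rad_T / 3 + s`, for all `X ≥ 1` and
`s ≥ 0`.
(3) The rate `d` is sharp: at least `c exp (-d s) X ^ (2 d / 3)` of them have
`h ≥ rad_T / 3 + s`, for all `0 ≤ s ≤ log X / 7` and all large `X`.
(4) If `ψ` tends to infinity, almost all of them satisfy `h < rad_T / 3 + ψ (rad_T)`: the
proportion of the others tends to `0`. -/
theorem result : ∀ (K : Type) [Field K] [NumberField K] (T : Set (HeightOneSpectrum (𝓞 K))),
    T.Finite →
    (∃ c C X₀ : ℝ, 0 < c ∧ ∀ X : ℝ, X₀ ≤ X → (Points T X).Finite ∧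
      c * X ^ ((Module.finrank ℚ K : ℝ) * (2 / 3)) ≤ ((Points T X).ncard : ℝ) ∧
      ((Points T X).ncard : ℝ) ≤ C * X ^ ((Module.finrank ℚ K : ℝ) * (2 / 3)) ∧
      Above T (fun _ => 0) X = Points T X) ∧
    (∀ β : ℝ, β < Module.finrank ℚ K → ∃ C ν : ℝ, 0 < C ∧ 0 < ν ∧ ∀ X s : ℝ, 1 ≤ X → 0 ≤ s →
      ((Above T (fun _ => s) X).ncard : ℝ) ≤
        C * (Real.exp (-(β * s)) + X ^ (-ν)) * X ^ ((Module.finrank ℚ K : ℝ) * (2 / 3))) ∧
    (∃ c X₀ : ℝ, 0 < c ∧ ∀ X s : ℝ, X₀ ≤ X → 0 ≤ s → s ≤ Real.log X / 7 →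
      c * Real.exp (-((Module.finrank ℚ K : ℝ) * s)) * X ^ ((Module.finrank ℚ K : ℝ) * (2 / 3)) ≤
        ((Above T (fun _ => s) X).ncard : ℝ)) ∧
    (∀ ψ : ℝ → ℝ, Tendsto ψ atTop atTop →
      Tendsto (fun X : ℝ => ((Above T ψ X).ncard : ℝ) / ((Points T X).ncard : ℝ)) atTop (𝓝 0)) := by
  intro K _ _ T hT
  have hd : (0 : ℝ) < Module.finrank ℚ K := by exact_mod_cast Module.finrank_pos
  obtain ⟨c, X0, hc, hX0, hlo⟩ := Pool.Agent.V8H4.TL.above_lower K T hT
  obtain ⟨C, ν, hC, hν, hup⟩ := Pool.Agent.V8H4.TL.above_upper K T hT 0 hd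
  refine ⟨⟨c, C * 2, X0, hc, fun X hX => ?_⟩, fun β hβ => ?_, ⟨c, X0, hc, hlo⟩,
    fun ψ hψ => Pool.Agent.V8H4.TL.above_psi K T hT ψ hψ⟩
  · have hX1 : 1 ≤ X := hX0.trans hX
    have hXp : 0 < X := by linarith
    have heq : Points T X = Above T (fun _ => 0) X := Pool.Agent.V8H4.TL.points_eq T hT X
    obtain ⟨h1, h2⟩ := hup X 0 hX1 le_rfl
    have h3 := hlo X 0 hX le_rfl (by have := Real.log_nonneg hX1; positivity)
    rw [mul_zero, neg_zero, Real.exp_zero, mul_one] at h3
    rw [heq]
    refine ⟨h1, h3, h2.trans ?_, rfl⟩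
    refine mul_le_mul_of_nonneg_right ?_ (Real.rpow_pos_of_pos hXp _).le
    refine mul_le_mul_of_nonneg_left ?_ hC.le
    have h4 : X ^ (-ν) ≤ 1 := Real.rpow_le_one_of_one_le_of_nonpos hX1 (by linarith)
    rw [zero_mul, neg_zero, Real.exp_zero]
    linarith
  · obtain ⟨C, ν, hC, hν, h⟩ := Pool.Agent.V8H4.TL.above_upper K T hT β hβ
    exact ⟨C, ν, hC, hν, fun X s hX hs => (h X s hX hs).2⟩

end Pool.Agent.Results.MP_a793bb_nt.SharpAlmostAll
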