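import Mathlib
import Pool.Agent.R425.MK.Cnt
import Pool.Agent.R482.ST.Star

/-!
# The abc inequality over all number fields at once without exceptions near powers, orbits and
# other sequences

Let `f_n`, `n = 0, 1, 2, …`, be positive functions on `(a, ∞)`, `a ≥ 0`, such that `f_n(x) / x` is
nondecreasing, and such that the sequence `f_n(x)` has exponent of convergence at most `τ` for each
`x > a`: for instance `f_n(x) = x ^ (v_n)` for exponents `v_n ≥ 1`, the orbits
`f_n(x) = g (g (⋯ g (x)))` of a map `g` with `g(x) > x` and `g(x) / x` nondecreasing (both with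
`τ = 0`), and `f_n(x) = v_n x`. Let `θ < 1` and `0 < t ≤ 3`. For all `α > a` outside one set of
Hausdorff dimension at most `(F(t) + τ) / (1 - θ)` the following holds for ALL number fields `K`, all
finite sets `T` of primes of `K` and all real `c₀`, `c`: for all but finitely many `n`, ALL points
`P = (a : b : c)` over `K` with `a + b + c = 0`, `abc ≠ 0` for which `H = exp (d h(P))`,
`d = [K : ℚ]`, satisfies `|H - f_n(α)| ≤ c f_n(α) ^ θ` have `rad_T(P) > t h(P) + c₀`.
-/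

set_option autoImplicit false

namespace Pool.Agent.Results.MP_a793bb_nt.WindowsAllFields

open NumberField IsDedekindDomain

section Defs

variable {K : Type} [Field K] [NumberField K]

/-- the height `h(P)` of the point `P` with coordinates `x` -/
noncomputable def height (x : Fin 3 → K) : ℝ :=
  (∑ w : InfinitePlace K, (w.mult : ℝ) * Real.log (max (w (x 0)) (max (w (x 1)) (w (x 2)))) +
    ∑ᶠ v : HeightOneSpectrum (𝓞 K), Real.log
      (max (FinitePlace.mk v (x 0)) (max (FinitePlace.mk v (x 1)) (FinitePlace.mk v (x 2))))) /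
    (Module.finrank ℚ K : ℝ)

/-- the radical of the point `P` with coordinates `x`, without the primes of `T`: the sum of
`log N(v) / d` over the primes `v ∉ T` at which the valuations of the coordinates are not all
equal -/
noncomputable def rad (T : Set (HeightOneSpectrum (𝓞 K))) (x : Fin 3 → K) : ℝ :=
  (∑ᶠ (v : HeightOneSpectrum (𝓞 K)) (_ : v ∉ T ∧
      ¬ (FinitePlace.mk v (x 0) = FinitePlace.mk v (x 1) ∧
        FinitePlace.mk v (x 1) = FinitePlace.mk v (x 2))),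
    Real.log (Ideal.absNorm v.asIdeal : ℝ)) / (Module.finrank ℚ K : ℝ)

/-- the point `(x : 1 - x : -1)` -/
def pt {K : Type} [Field K] (x : K) : Fin 3 → K := ![x, 1 - x, -1]

end Defs

/-- the exponent, a continuous piecewise linear function on `(0, 3]` -/
noncomputable def F (t : ℝ) : ℝ :=
  if t ≤ 7 / 15 then 4 * t / 7
  else if t ≤ 1 then (19 * t + 1) / 37
  else if t ≤ 9 / 7 then 5 * (9 * t - 1) / 74
  else if t ≤ 3 / 2 then 5 * t / 9
  else if t ≤ 5 / 3 then t - 2 / 3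
  else if t ≤ 2 then 1
  else t - 1

/-- the functions `f n` are positive on `(a, ∞)`, `a ≥ 0`, and `f n x / x` is nondecreasing there -/
def Starshaped (a : ℝ) (f : ℕ → ℝ → ℝ) : Prop :=
  0 ≤ a ∧ ∀ n : ℕ, ∀ x y : ℝ, a < x → x ≤ y → 0 < f n x ∧ f n x / x ≤ f n y / y

/-- for each `x > a` the exponent of convergence of the sequence `f n x` is at most `τ` -/
def ExpLe (a : ℝ) (f : ℕ → ℝ → ℝ) (τ : ℝ) : Prop :=
  ∀ x : ℝ, a < x → ∀ t : ℝ, τ < t → Summable (fun n : ℕ => (f n x) ^ (-t))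

theorem dpos (K : Type) [Field K] [NumberField K] : 0 < (Module.finrank ℚ K : ℝ) := by
  exact_mod_cast Module.finrank_pos

theorem height_nonneg {K : Type} [Field K] [NumberField K] (x : K) : 0 ≤ height (pt x) :=
  div_nonneg (Pool.Agent.R425.MK.H3_nonneg x) (dpos K).le

/-- the count -/
theorem count {K : Type} [Field K] [NumberField K] (T : Set (HeightOneSpectrum (𝓞 K)))
    (hT : T.Finite) {t : ℝ} (c₀ : ℝ) (ht0 : 0 < t) (ht3 : t ≤ 3) (ε : ℝ) (hε : 0 < ε) :
    ∃ C : ℝ, ∀ X : ℝ, 1 ≤ X →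
      {x : K | x ∈ {x : K | x ≠ 0 ∧ x ≠ 1 ∧ rad T (pt x) ≤ t * height (pt x) + c₀} ∧
        Real.exp ((Module.finrank ℚ K : ℝ) * height (pt x)) ≤ X}.Finite ∧
      (({x : K | x ∈ {x : K | x ≠ 0 ∧ x ≠ 1 ∧ rad T (pt x) ≤ t * height (pt x) + c₀} ∧
        Real.exp ((Module.finrank ℚ K : ℝ) * height (pt x)) ≤ X}.ncard : ℕ) : ℝ) ≤
        C * X ^ (F t + ε) := by
  have hd := dpos K
  set d : ℝ := (Module.finrank ℚ K : ℝ) with hdd
  obtain ⟨C, hC⟩ := Pool.Agent.R425.MK.count T hT (d * c₀) ht0 ht3 (mul_pos hd hε)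
  refine ⟨C, fun X hX => ?_⟩
  have hX0 : 0 < X := by linarith
  have hB : (1 : ℝ) ≤ X ^ (1 / d) := Real.one_le_rpow hX (by positivity)
  have h := hC _ hB
  have hset : {x : K | x ∈ {x : K | x ≠ 0 ∧ x ≠ 1 ∧ rad T (pt x) ≤ t * height (pt x) + c₀} ∧
        Real.exp (d * height (pt x)) ≤ X} =
      {x : K | x ≠ 0 ∧ x ≠ 1 ∧ Pool.Agent.W223.AK.H3 (Pool.Agent.R425.MK.pt3 x) /
          (Module.finrank ℚ K : ℝ) ≤ Real.log (X ^ (1 / d)) ∧
        Pool.Agent.W223.AK.R3 T (Pool.Agent.R425.MK.pt3 x) ≤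
          t * Pool.Agent.W223.AK.H3 (Pool.Agent.R425.MK.pt3 x) + d * c₀} := by
    ext x
    have e1 : rad T (pt x) = Pool.Agent.W223.AK.R3 T (Pool.Agent.R425.MK.pt3 x) / d := rfl
    have e2 : height (pt x) = Pool.Agent.W223.AK.H3 (Pool.Agent.R425.MK.pt3 x) / d := rfl
    simp only [Set.mem_ofPred_eq]
    rw [Real.log_rpow hX0, e1, e2, mul_div_cancel₀ _ hd.ne', ← Real.le_log_iff_exp_le hX0,
      div_le_iff₀ hd, div_le_iff₀ hd]
    have e3 : 1 / d * Real.log X * d = Real.log X := by field_simp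
    have e4 : (t * (Pool.Agent.W223.AK.H3 (Pool.Agent.R425.MK.pt3 x) / d) + c₀) * d =
        t * Pool.Agent.W223.AK.H3 (Pool.Agent.R425.MK.pt3 x) + d * c₀ := by
      field_simp
    rw [e3, e4]
    tauto
  rw [hset]
  refine ⟨h.1, h.2.trans (le_of_eq ?_)⟩
  congr 1
  rw [← Real.rpow_mul hX0.le]
  congr 1
  show 1 / d * (d * Pool.Agent.R365.AK.eK t + d * ε) = F t + ε
  have : Pool.Agent.R365.AK.eK t = F t := rfl
  rw [this]
  field_simp

theorem F_nonneg {t : ℝ} (ht : 0 < t) : 0 ≤ F t := Pool.Agent.R365.AK.eK_nonneg ht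

/-- the number fields in the algebraic closure are countably many -/
theorem countable_fields :
    Countable {K : IntermediateField ℚ (AlgebraicClosure ℚ) // NumberField K} := by
  have hA : Algebra.IsAlgebraic ℚ (AlgebraicClosure ℚ) := by
    have := AlgebraicClosure.isAlgebraic ℚ
    convert this
    · rfl
    · exact Subsingleton.elim _ _
  have h0 : Countable (AlgebraicClosure ℚ) := by
    rw [← Cardinal.mk_le_aleph0_iff]
    refine (Algebra.IsAlgebraic.cardinalMk_le_max ℚ (AlgebraicClosure ℚ)).trans ?_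
    simp
  have hex : ∀ K : {K : IntermediateField ℚ (AlgebraicClosure ℚ) // NumberField K},
      ∃ α : AlgebraicClosure ℚ, IntermediateField.adjoin ℚ {α} = K.1 := by
    intro K
    have := K.2
    have h2 : ∃ α : K.1, @IntermediateField.adjoin ℚ _ K.1 _ (K.1.algebra') {α} = ⊤ := by
      have e : (K.1.algebra' : Algebra ℚ K.1) = DivisionRing.toRatAlgebra := Subsingleton.elim _ _
      rw [e]
      exact Field.exists_primitive_element ℚ K.1
    obtain ⟨α, hα⟩ := h2
    have h1 := congrArg (IntermediateField.lift) hα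
    rw [IntermediateField.lift_top] at h1
    exact ⟨(α : AlgebraicClosure ℚ), (IntermediateField.lift_adjoin_simple ℚ K.1 α).symm.trans h1⟩
  choose g hg using hex
  refine Function.Injective.countable (f := g) fun K L h => Subtype.ext ?_
  rw [← hg K, ← hg L, h]

/-- one number field, one set of primes, one constant -/
theorem one_field (K : Type) [Field K] [NumberField K] (T : Finset (HeightOneSpectrum (𝓞 K)))
    (m : ℕ) {a : ℝ} {f : ℕ → ℝ → ℝ} {τ θ t : ℝ} (hf : Starshaped a f) (hτ : 0 ≤ τ)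
    (hE : ExpLe a f τ) (hθ : θ < 1) (ht0 : 0 < t) (ht3 : t ≤ 3) :
    ∃ E : Set ℝ, dimH E ≤ ENNReal.ofReal ((F t + τ) / (1 - θ)) ∧
      ∀ α : ℝ, a < α → α ∉ E → ∀ c : ℝ, ∃ n₀ : ℕ, ∀ n : ℕ, n₀ ≤ n → ∀ x : K, x ≠ 0 → x ≠ 1 →
        |Real.exp ((Module.finrank ℚ K : ℝ) * height (pt x)) - f n α| ≤ c * (f n α) ^ θ →
          t * height (pt x) + m < rad (T : Set _) (pt x) := by
  have hc := count (K := K) (T : Set (HeightOneSpectrum (𝓞 K))) T.finite_toSet (m : ℝ) ht0 ht3
  obtain ⟨E, hE1, hE2⟩ := Pool.Agent.R482.ST.windows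
    {x : K | x ≠ 0 ∧ x ≠ 1 ∧ rad (T : Set (HeightOneSpectrum (𝓞 K))) (pt x) ≤
      t * height (pt x) + (m : ℝ)}
    (fun x : K => Real.exp ((Module.finrank ℚ K : ℝ) * height (pt x))) hf hτ hE
    (s := F t) (F_nonneg ht0) hθ hc
  refine ⟨E, hE1, fun α hα hαE c => ?_⟩
  obtain ⟨n₀, hn⟩ := hE2 α hα hαE c
  refine ⟨n₀, fun n hn1 x hx0 hx1 hw => ?_⟩
  by_contra hcon
  rw [not_lt] at hcon
  exact absurd (hn n hn1 x ⟨hx0, hx1, hcon⟩) (not_lt.2 hw)

/-- **Theorem.** Let `f` be starshaped functions on `(a, ∞)` of exponent of convergence at most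
`τ ≥ 0`, `θ < 1` and `0 < t ≤ 3`. There is a set `E` of Hausdorff dimension at most
`(F(t) + τ) / (1 - θ)` such that for each `α > a` outside `E`, ALL number fields `K` (in the algebraic
closure of `ℚ`), of degree `d`, all finite sets `T` of primes of `K` and all real `c₀` and `c`, for all
but finitely many `n`, ALL points `P = (x : 1 - x : -1)`, `x ∈ K`, `x ≠ 0, 1` with
`|exp (d h(P)) - f_n(α)| ≤ c f_n(α) ^ θ` satisfy `rad_T(P) > t h(P) + c₀`.
The functions `v_n x`, `v_n > 0`, are starshaped on `(0, ∞)`, of exponent `τ` if `v` has exponent of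
convergence at most `τ`; the functions `x ^ (v_n)`, `v_n ≥ 1`, are starshaped on `(1, ∞)`, of exponent
`0` if the sums of `exp (-s v_n)` converge for `s > 0`; and the iterates of a map `g` with `g(x) > x`
for `x > a` and `g(x) / x` nondecreasing are starshaped on `(a, ∞)`, of exponent `0`. -/
theorem result :
    (∀ (a : ℝ) (f : ℕ → ℝ → ℝ) (τ θ t : ℝ), Starshaped a f → 0 ≤ τ → ExpLe a f τ → θ < 1 →
      0 < t → t ≤ 3 →
      ∃ E : Set ℝ, dimH E ≤ ENNReal.ofReal ((F t + τ) / (1 - θ)) ∧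
        ∀ α : ℝ, a < α → α ∉ E →
          ∀ (K : IntermediateField ℚ (AlgebraicClosure ℚ)) [NumberField K]
            (T : Set (HeightOneSpectrum (𝓞 K))), T.Finite → ∀ c₀ c : ℝ,
            ∃ n₀ : ℕ, ∀ n : ℕ, n₀ ≤ n → ∀ x : K, x ≠ 0 → x ≠ 1 →
              |Real.exp ((Module.finrank ℚ K : ℝ) * height (pt x)) - f n α| ≤ c * (f n α) ^ θ →
                t * height (pt x) + c₀ < rad T (pt x)) ∧
    (∀ (v : ℕ → ℝ) (τ : ℝ), (∀ n, 0 < v n) → (∀ t : ℝ, τ < t → Summable (fun n : ℕ => (v n) ^ (-t))) →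
      Starshaped 0 (fun n x => v n * x) ∧ ExpLe 0 (fun n x => v n * x) τ) ∧
    (∀ v : ℕ → ℝ, (∀ n, 1 ≤ v n) → (∀ t : ℝ, 0 < t → Summable fun n : ℕ => Real.exp (-(t * v n))) →
      Starshaped 1 (fun n x => x ^ (v n)) ∧ ExpLe 1 (fun n x => x ^ (v n)) 0) ∧
    (∀ (a : ℝ) (g : ℝ → ℝ), 0 ≤ a → (∀ x y : ℝ, a < x → x ≤ y → g x / x ≤ g y / y) →
      (∀ x : ℝ, a < x → x < g x) →
      Starshaped a (fun n x => g^[n] x) ∧ ExpLe a (fun n x => g^[n] x) 0) := by
  refine ⟨fun a f τ θ t hf hτ hE hθ ht0 ht3 => ?_, Pool.Agent.R482.ST.ex_mul,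
    Pool.Agent.R482.ST.ex_pow, Pool.Agent.R482.ST.ex_orbit⟩
  have hall : ∀ i : {K : IntermediateField ℚ (AlgebraicClosure ℚ) // NumberField K}, ∃ E : Set ℝ,
      dimH E ≤ ENNReal.ofReal ((F t + τ) / (1 - θ)) ∧
      ∀ α : ℝ, a < α → α ∉ E → ∀ (_ : NumberField i.1)
        (T : Finset (HeightOneSpectrum (𝓞 i.1))) (m : ℕ) (c : ℝ),
        ∃ n₀ : ℕ, ∀ n : ℕ, n₀ ≤ n → ∀ x : i.1, x ≠ 0 → x ≠ 1 →
          |Real.exp ((Module.finrank ℚ i.1 : ℝ) * height (pt x)) - f n α| ≤ c * (f n α) ^ θ →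
            t * height (pt x) + m < rad (T : Set _) (pt x) := by
    intro i
    have := i.2
    have hone := fun (p : Finset (HeightOneSpectrum (𝓞 i.1)) × ℕ) =>
      one_field i.1 p.1 p.2 hf hτ hE hθ ht0 ht3
    choose E hE1 hE2 using hone
    have := Pool.Agent.R425.MK.countable_primes (K := i.1)
    refine ⟨⋃ p, E p, ?_, fun α hα hαE _ T m c => ?_⟩
    · rw [dimH_iUnion]
      exact iSup_le hE1
    · exact hE2 (T, m) α hα (fun h => hαE (Set.mem_iUnion.2 ⟨_, h⟩)) c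
  choose E hE1 hE2 using hall
  have := countable_fields
  refine ⟨⋃ i, E i, ?_, fun α hα hαE K _ T hT c₀ c => ?_⟩
  · rw [dimH_iUnion]
    exact iSup_le hE1
  · obtain ⟨m, hm⟩ := exists_nat_ge c₀
    obtain ⟨n₀, hn⟩ := hE2 ⟨K, inferInstance⟩ α hα
      (fun h => hαE (Set.mem_iUnion.2 ⟨_, h⟩)) inferInstance hT.toFinset m c
    refine ⟨n₀, fun n hn1 x hx0 hx1 hw => ?_⟩
    have h := hn n hn1 x hx0 hx1 hw
    rw [Set.Finite.coe_toFinset] at h
    linarith

end Pool.Agent.Results.MP_a793bb_nt.WindowsAllFields
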